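import Pool.Agent.Q116.CL.Diag

/-!
A functional which clarifies the countable well-orderings and to which Kleene's `O` is not
reducible by Borel maps.
-/

set_option autoImplicit false

namespace Pool.Agent.Results.MP_f7aa94_lc.NoReduction

open Pool.Agent.Q116.CL

theorem result : ∃ F : (ℕ → Bool) → (ℕ → Bool), Clarifies F W ∧ (∀ K, Clarifies F K) ∧
    (∀ R₀ : (ℕ → Bool) → (ℕ → Bool), Measurable R₀ → ∃ x y, x ≠ y ∧ F (R₀ x) = F (R₀ y)) ∧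
    (∀ R₀ R₁ : (ℕ → Bool) → (ℕ → Bool), Measurable R₀ → ∃ x, R₁ (F (R₀ x)) ≠ OBox x) ∧
    ∀ R₀ R₁ : (ℕ → Bool) → (ℕ → Bool), Continuous R₀ → Continuous R₁ →
      ¬ ∀ x, R₁ (F (R₀ x)) = OBox x := by
  obtain ⟨F, h1, h2⟩ := main
  have h3 : ∀ R₀ R₁ : (ℕ → Bool) → (ℕ → Bool), Measurable R₀ → ∃ x, R₁ (F (R₀ x)) ≠ OBox x := by
    intro R₀ R₁ hR
    by_contra hn
    push Not at hn
    obtain ⟨x, y, hxy, h⟩ := h2 R₀ hR
    apply hxy
    apply OBox_injective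
    rw [← hn x, ← hn y, h]
  refine ⟨F, h1 W, h1, h2, h3, fun R₀ R₁ hR₀ _ h => ?_⟩
  obtain ⟨x, hx⟩ := h3 R₀ R₁ hR₀.measurable
  exact hx (h x)

end Pool.Agent.Results.MP_f7aa94_lc.NoReduction
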